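import Pool.Agent.Lib.MP_eee7a8_ag.TB.Iface3
import Pool.Agent.Lib.MP_eee7a8_ag.TB.A.Ord

/-!
# TAGBR, module CASEB1: Hartogs in a square with all sides in `F`
-/

set_option autoImplicit false
set_option linter.all false

open Matrix

namespace Pool.Agent.Lib.MP_eee7a8_ag.TB.C30

section arcs

variable {G : Subgroup SLZ}

theorem SA.refl (a b : Cusp) : SameArc G a b a b :=
  ⟨1, G.one_mem, Or.inl ⟨one_smul' a, one_smul' b⟩⟩

theorem SA.symm {a b c d : Cusp} (h : SameArc G a b c d) : SameArc G c d a b := by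
  obtain ⟨g, hg, ⟨h1, h2⟩ | ⟨h1, h2⟩⟩ := h
  · exact ⟨g⁻¹, G.inv_mem hg, Or.inl ⟨by rw [← h1, inv_smul_smul], by rw [← h2, inv_smul_smul]⟩⟩
  · exact ⟨g⁻¹, G.inv_mem hg, Or.inr ⟨by rw [← h2, inv_smul_smul], by rw [← h1, inv_smul_smul]⟩⟩

theorem SA.trans {a b c d e f : Cusp} (h : SameArc G a b c d) (h' : SameArc G c d e f) :
    SameArc G a b e f := by
  obtain ⟨g, hg, h⟩ := h
  obtain ⟨g', hg', h'⟩ := h'
  refine ⟨g' * g, G.mul_mem hg' hg, ?_⟩
  rw [mul_smul', mul_smul']
  rcases h with ⟨h1, h2⟩ | ⟨h1, h2⟩ <;> rcases h' with ⟨h3, h4⟩ | ⟨h3, h4⟩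
  · exact Or.inl ⟨by rw [h1, h3], by rw [h2, h4]⟩
  · exact Or.inr ⟨by rw [h1, h3], by rw [h2, h4]⟩
  · exact Or.inr ⟨by rw [h1, h4], by rw [h2, h3]⟩
  · exact Or.inl ⟨by rw [h1, h4], by rw [h2, h3]⟩

theorem SA.flip (a b : Cusp) : SameArc G a b b a :=
  ⟨1, G.one_mem, Or.inr ⟨one_smul' a, one_smul' b⟩⟩

theorem SA.smul {g : SLZ} (hg : g ∈ G) (a b : Cusp) : SameArc G a b (g • a) (g • b) :=
  ⟨g, hg, Or.inl ⟨rfl, rfl⟩⟩

variable {ι : Type} {T : Fam ι}

theorem E_inv {a b c d : Cusp} (h : SameArc G a b c d) (h' : T.E G a b) : T.E G c d := by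
  obtain ⟨i, hi⟩ := h'
  exact ⟨i, SA.trans hi h⟩

theorem E_comm {a b : Cusp} (h' : T.E G a b) : T.E G b a := E_inv (SA.flip a b) h'

theorem E_ne (hT : T.NonCross G) {a b : Cusp} (h : T.E G a b) : a ≠ b := by
  obtain ⟨i, g, hg, ⟨h1, h2⟩ | ⟨h1, h2⟩⟩ := h
  · rintro rfl
    apply hT.ne i
    exact (MulAction.injective g) (h1.trans h2.symm)
  · rintro rfl
    apply hT.ne i
    exact (MulAction.injective g) (h1.trans h2.symm)

end arcs

section rings

variable {G : Subgroup SLZ} {K : Type} [Field K] [Algebra ℂ K]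

theorem lam_sameArc (L : Lam G K) {a b c d : Cusp} (h : SameArc G a b c d) :
    L.lam a b = L.lam c d := by
  obtain ⟨g, hg, h | h⟩ := h
  · rw [← h.1, ← h.2, L.inv g hg]
  · rw [← h.1, ← h.2, ← L.inv g hg, L.symm]

theorem lam_mem_RA (L : Lam G K) (a b : Cusp) : L.lam a b ∈ L.RA :=
  Algebra.subset_adjoin (Or.inl ⟨a, b, fun _ _ h => h.elim, rfl⟩)

theorem tr_mem_RA (L : Lam G K) (g : SLZ) (hg : g ∈ G) (h : 2 < |g.1.trace|) : L.tr g ∈ L.RA :=
  Algebra.subset_adjoin (Or.inr ⟨g, hg, h, fun _ _ h => h.elim, rfl⟩)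

theorem RA_le_RI (L : Lam G K) (F : Cusp → Cusp → Prop) : L.RA ≤ L.RI F := fun z hz =>
  Algebra.subset_adjoin (Or.inl hz)

theorem inv_mem_RI (L : Lam G K) (F : Cusp → Cusp → Prop) {a b : Cusp} (h : F a b) :
    (L.lam a b)⁻¹ ∈ L.RI F := Algebra.subset_adjoin (Or.inr ⟨a, b, h, rfl⟩)

theorem pow_mul_mem_RI (L : Lam G K) (F : Cusp → Cusp → Prop) (p q : Cusp) (h0 : L.lam p q ≠ 0)
    {f : K} (hf : f ∈ L.RI (AddArc G F p q)) : ∃ N : ℕ, L.lam p q ^ N * f ∈ L.RI F := by
  have hx : ∀ n : ℕ, L.lam p q ^ n ∈ L.RI F := fun n =>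
    pow_mem (RA_le_RI L F (lam_mem_RA L p q)) n
  unfold Lam.RI at hf
  induction hf using Algebra.adjoin_induction with
  | mem z hz =>
    rcases hz with hz | ⟨a, b, hF | hS, rfl⟩
    · exact ⟨0, by rw [pow_zero, one_mul]; exact RA_le_RI L F hz⟩
    · exact ⟨0, by rw [pow_zero, one_mul]; exact inv_mem_RI L F hF⟩
    · refine ⟨1, ?_⟩
      rw [pow_one, ← lam_sameArc L hS, mul_inv_cancel₀ h0]
      exact one_mem _
  | algebraMap r => exact ⟨0, by rw [pow_zero, one_mul]; exact (L.RI F).algebraMap_mem r⟩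
  | add u v _ _ hu hv =>
    obtain ⟨N, hN⟩ := hu
    obtain ⟨M, hM⟩ := hv
    refine ⟨N + M, ?_⟩
    have : L.lam p q ^ (N + M) * (u + v) = L.lam p q ^ M * (L.lam p q ^ N * u) +
      L.lam p q ^ N * (L.lam p q ^ M * v) := by ring
    rw [this]
    exact add_mem (mul_mem (hx M) hN) (mul_mem (hx N) hM)
  | mul u v _ _ hu hv =>
    obtain ⟨N, hN⟩ := hu
    obtain ⟨M, hM⟩ := hv
    refine ⟨N + M, ?_⟩
    have : L.lam p q ^ (N + M) * (u * v) = (L.lam p q ^ N * u) * (L.lam p q ^ M * v) := by ring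
    rw [this]
    exact mul_mem hN hM

end rings

theorem caseb1 (hH : Hart1Statement) (hI : IndkStatement) (hL : LobeStatement)
    (hC : CutStatement) (hN : NonzeroStatement) : CaseB1Statement := by
  intro G K _ _ L hG ι _ T hT F hF x₁ x₂ x₃ y h12 h23 h1y h3y hE hnF hcr f hf1 hf2
  classical
  have hFE : ∀ {a b}, F a b → T.E G a b := fun {a b} h => hF.sub a b h
  have hFinv : ∀ {a b c d}, SameArc G a b c d → F a b → F c d := fun {a b c d} h h' =>
    hF.inv a b c d h h'
  have hFcomm : ∀ {a b}, F a b → F b a := fun {a b} h => hFinv (SA.flip a b) h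
  have hnc : ∀ {a b c d}, T.E G a b → T.E G c d → ¬ Cross a b c d := fun {a b c d} h h' =>
    hT.nocross a b c d h h'
  have hne : ∀ {a b}, T.E G a b → a ≠ b := fun {a b} h => E_ne hT.toNonCross h
  -- the translates of the diagonal
  let S : Cusp → Cusp → Prop := fun a b => SameArc G x₁ x₃ a b
  have hSE : SubE G T S :=
    { sub := fun a b h => E_inv h hE
      inv := fun a b c d h h' => SA.trans h' h }
  have hSF : ∀ {a b}, S a b → ¬ F a b := fun {a b} h h' => hnF (hFinv (SA.symm h) h')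
  have hFS : ∀ {a b}, F a b → ¬ S a b := fun {a b} h h' => hSF h' h
  -- third vertices of triangles over the diagonal
  have hthird : ∀ c, T.E G x₁ c → T.E G x₃ c → c = x₂ ∨ c = y := by
    intro c h1 h3
    by_cases h : Cross c x₂ x₁ x₃
    · right
      have h' : ¬ Cross c y x₁ x₃ := by
        simp only [cross_iff] at *
        grind
      exact third_unique h' (hnc (E_comm h1) (E_comm (hFE h3y))) (hnc (E_comm h3) (E_comm (hFE h1y)))
        (hne h1).symm (hne h3).symm (hne (hFE h1y)).symm (hne (hFE h3y)).symm (hne hE)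
    · left
      exact third_unique h (hnc (E_comm h1) (hFE h23)) (hnc (E_comm h3) (E_comm (hFE h12)))
        (hne h1).symm (hne h3).symm (hne (hFE h12)).symm (hne (hFE h23)) (hne hE)
  have hthird' : ∀ c, T.E G x₁ c → T.E G x₃ c → F x₁ c ∧ F x₃ c := by
    intro c h1 h3
    rcases hthird c h1 h3 with rfl | rfl
    · exact ⟨h12, hFcomm h23⟩
    · exact ⟨h1y, h3y⟩
  have hlobe : ∀ a b c, S a b → T.E G a c → T.E G b c → (S a c ∨ F a c) := by
    rintro a b c ⟨g, hg, ⟨rfl, rfl⟩ | ⟨rfl, rfl⟩⟩ h1 h2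
    · right
      have e : g • (g⁻¹ • c) = c := smul_inv_smul g c
      have h1' : T.E G x₁ (g⁻¹ • c) := by
        have := E_inv (SA.smul (G.inv_mem hg) (g • x₁) c) h1
        rwa [inv_smul_smul] at this
      have h2' : T.E G x₃ (g⁻¹ • c) := by
        have := E_inv (SA.smul (G.inv_mem hg) (g • x₃) c) h2
        rwa [inv_smul_smul] at this
      have := hFinv (SA.smul hg x₁ (g⁻¹ • c)) (hthird' _ h1' h2').1
      rwa [e] at this
    · right
      have e : g • (g⁻¹ • c) = c := smul_inv_smul g c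
      have h1' : T.E G x₃ (g⁻¹ • c) := by
        have := E_inv (SA.smul (G.inv_mem hg) (g • x₃) c) h1
        rwa [inv_smul_smul] at this
      have h2' : T.E G x₁ (g⁻¹ • c) := by
        have := E_inv (SA.smul (G.inv_mem hg) (g • x₁) c) h2
        rwa [inv_smul_smul] at this
      have := hFinv (SA.smul hg x₃ (g⁻¹ • c)) (hthird' _ h2' h1').2
      rwa [e] at this
  -- numbers
  have hx0 : L.lam x₁ x₃ ≠ 0 := hN G K L hG _ _ (hne hE)
  have hy0 : L.lam x₂ y ≠ 0 := hN G K L hG _ _ (by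
    intro h
    have := hcr
    rw [h] at this
    simp only [cross_iff] at this
    grind)
  set x : K := L.lam x₁ x₃ with hx
  set c : K := L.lam x₂ x₁ * L.lam y x₃ + L.lam x₂ x₃ * L.lam y x₁ with hc
  have hcx : L.lam x₂ y * x = c := L.ptolemy x₂ y x₁ x₃ hcr
  have hcx' : c / x = L.lam x₂ y := by rw [← hcx]; field_simp
  have hc0 : c ≠ 0 := by rw [← hcx]; exact mul_ne_zero hy0 hx0
  -- the rings
  let D : Subalgebra ℂ K := Algebra.adjoin ℂ
    ({z | ∃ a b, ¬ S a b ∧ (∀ c d, S c d ∨ F c d → ¬ Cross a b c d) ∧ z = L.lam a b} ∪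
      {z | ∃ a b, F a b ∧ z = (L.lam a b)⁻¹} ∪
      {z | ∃ h ∈ G, 2 < |h.1.trace| ∧ (∀ c d, S c d ∨ F c d → 0 < side h c * side h d) ∧
        z = L.tr h})
  let A : Subalgebra ℂ K := Algebra.adjoin ℂ ((D : Set K) ∪ {x, c / x})
  have hDA : ∀ {z}, z ∈ D → z ∈ A := fun {z} h => Algebra.subset_adjoin (Or.inl h)
  have hxA : x ∈ A := Algebra.subset_adjoin (Or.inr (Or.inl rfl))
  have hyA : c / x ∈ A := Algebra.subset_adjoin (Or.inr (Or.inr rfl))
  have hDR : D ≤ L.RI F := by
    apply Algebra.adjoin_le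
    rintro z ((⟨a, b, _, _, rfl⟩ | ⟨a, b, h, rfl⟩) | ⟨h, hh, h2, _, rfl⟩)
    · exact RA_le_RI L F (lam_mem_RA L a b)
    · exact inv_mem_RI L F h
    · exact RA_le_RI L F (tr_mem_RA L h hh h2)
  have hAR : A ≤ L.RI F := by
    apply Algebra.adjoin_le
    rintro z (h | rfl | h)
    · exact hDR h
    · exact RA_le_RI L F (lam_mem_RA L _ _)
    · rw [Set.mem_singleton_iff] at h
      rw [h, hcx']
      exact RA_le_RI L F (lam_mem_RA L _ _)
  have hFD : ∀ {a b}, F a b → L.lam a b ∈ D := by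
    intro a b h
    refine Algebra.subset_adjoin (Or.inl (Or.inl ⟨a, b, hFS h, ?_, rfl⟩))
    rintro c d (h' | h')
    · exact hnc (hFE h) (hSE.sub _ _ h')
    · exact hnc (hFE h) (hFE h')
  have hcD : c ∈ D := by
    rw [hc]
    exact add_mem (mul_mem (hFD (hFcomm h12)) (hFD (hFcomm h3y)))
      (mul_mem (hFD h23) (hFD (hFcomm h1y)))
  have hinvD : ∀ {a b}, F a b → (L.lam a b)⁻¹ ∈ D := fun {a b} h =>
    Algebra.subset_adjoin (Or.inl (Or.inr ⟨a, b, h, rfl⟩))
  -- the field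
  obtain ⟨hlobe1, hlobe2⟩ := hL G K L hG ι T hT S F hSE hF hlobe
  let K0 : IntermediateField ℂ K :=
    IntermediateField.adjoin ℂ {z : K | ∃ a b, T.E G a b ∧ ¬ S a b ∧ z = L.lam a b}
  have hDK : (D : Set K) ⊆ K0 := by
    have : D ≤ K0.toSubalgebra := by
      apply Algebra.adjoin_le
      rintro z ((⟨a, b, h1, h2, rfl⟩ | ⟨a, b, h, rfl⟩) | ⟨h, hh, h2, h3, rfl⟩)
      · exact hlobe1 a b h1 h2
      · exact K0.inv_mem (IntermediateField.subset_adjoin _ _ ⟨a, b, hFE h, hFS h, rfl⟩)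
      · exact hlobe2 h hh h2 h3
    exact this
  -- independence
  have hind : ∀ (s : Finset ℤ) (k : ℤ → K), (∀ m ∈ s, k m ∈ K0) →
      ∑ m ∈ s, k m * x ^ m = 0 → ∀ m ∈ s, k m = 0 := by
    obtain ⟨i₀, hi₀⟩ := hE
    have hinj : Function.Injective (fun m : ℤ => (Pi.single i₀ m : ι → ℤ)) := by
      intro a b h
      have := congrFun h i₀
      simpa using this
    intro s k hk hs m hm
    have hmon : ∀ m : ℤ, L.mon T (Pi.single i₀ m) = x ^ m := by
      intro m
      unfold Lam.mon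
      rw [Finset.prod_eq_single i₀]
      · rw [Pi.single_eq_same, lam_sameArc L hi₀]
      · intro b _ hb
        rw [Pi.single_eq_of_ne hb, zpow_zero]
      · intro h
        exact absurd (Finset.mem_univ _) h
    have h := hI G K L hG ι T hT S hSE (s.image fun m : ℤ => (Pi.single i₀ m : ι → ℤ))
      (fun e => k (e i₀)) ?_ ?_ ?_ (Pi.single i₀ m) (Finset.mem_image_of_mem _ hm)
    · simpa using h
    · intro e he i hi
      obtain ⟨m', -, rfl⟩ := Finset.mem_image.1 he
      have : i ≠ i₀ := by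
        rintro rfl
        exact hi (SA.symm hi₀)
      exact Pi.single_eq_of_ne this _
    · intro e he
      obtain ⟨m', hm', rfl⟩ := Finset.mem_image.1 he
      simpa using hk m' hm'
    · rw [Finset.sum_image (fun a _ b _ h => hinj h)]
      rw [← hs]
      refine Finset.sum_congr rfl fun m' _ => ?_
      rw [hmon, Pi.single_eq_same]
  -- the generators
  have hRA : L.RA ≤ A := by
    let Q : Fam {i : ι // F (T.s i) (T.t i)} := ⟨fun i => T.s i.1, fun i => T.t i.1⟩
    have hQ : ∀ a b, Q.E G a b ↔ F a b := by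
      intro a b
      constructor
      · rintro ⟨i, hi⟩
        exact hFinv hi i.2
      · intro h
        obtain ⟨i, hi⟩ := hFE h
        exact ⟨⟨i, hFinv (SA.symm hi) h⟩, hi⟩
    refine hC G K L hG _ Q ⟨fun i => hT.ne i.1, fun a b c d h h' =>
      hnc (hFE ((hQ _ _).1 h)) (hFE ((hQ _ _).1 h'))⟩ A (fun a b h => hDA (hinvD ((hQ _ _).1 h))) ?_
    have hle : L.RR (Q.E G) ≤ A := by
      apply Algebra.adjoin_le
      rintro z (⟨a, b, hab, rfl⟩ | ⟨g, hg, htr, hgc, rfl⟩)
      · by_cases hSab : S a b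
        · rw [← lam_sameArc L hSab]
          exact hxA
        by_cases hSc : ∃ c d, S c d ∧ Cross a b c d
        · obtain ⟨c', d', hcd, hcross⟩ := hSc
          have key : ∀ a b : Cusp, (∀ c d, F c d → ¬ Cross a b c d) → Cross a b x₁ x₃ →
              L.lam a b ∈ A := by
            intro a b hab hcross
            have h1 := diag_unique (a := x₁) (f := x₃) (c := x₂) (d := y) (p := a) (q := b)
              (cross_swap.1 hcr) (cross_swap.1 hcross) (fun h => hab _ _ h12 (cross_swap.1 h))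
              (fun h => hab _ _ h1y (cross_swap.1 h))
              (fun h => hab _ _ (hFcomm h23) (cross_swap.1 h))
              (fun h => hab _ _ h3y (cross_swap.1 h))
            rcases h1 with ⟨rfl, rfl⟩ | ⟨rfl, rfl⟩
            · rw [← hcx']; exact hyA
            · rw [L.symm, ← hcx']; exact hyA
          have hab' : ∀ g ∈ G, ∀ c d, F c d → ¬ Cross (g⁻¹ • a) (g⁻¹ • b) c d := by
            intro g hg c d h h'
            refine hab (g • c) (g • d) ((hQ _ _).2 (hFinv (SA.smul hg c d) h)) ?_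
            rw [← cross_smul g⁻¹, inv_smul_smul, inv_smul_smul]
            exact h'
          obtain ⟨g, hg, ⟨rfl, rfl⟩ | ⟨rfl, rfl⟩⟩ := hcd
          · have := key (g⁻¹ • a) (g⁻¹ • b) (hab' g hg) (by
              rw [← cross_smul g, smul_inv_smul, smul_inv_smul]; exact hcross)
            rwa [L.inv _ (G.inv_mem hg)] at this
          · have := key (g⁻¹ • a) (g⁻¹ • b) (hab' g hg) (by
              rw [← cross_smul g, smul_inv_smul, smul_inv_smul]; exact cross_comm_right.1 hcross)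
            rwa [L.inv _ (G.inv_mem hg)] at this
        · push Not at hSc
          refine hDA (Algebra.subset_adjoin (Or.inl (Or.inl ⟨a, b, hSab, ?_, rfl⟩)))
          rintro c d (h | h)
          · exact hSc c d h
          · exact hab c d ((hQ _ _).2 h)
      · refine hDA (Algebra.subset_adjoin (Or.inr ⟨g, hg, htr, ?_, rfl⟩))
        have hF' : ∀ c d, F c d → 0 < side g c * side g d := fun c d h => hgc c d ((hQ _ _).2 h)
        have key : ∀ k ∈ G, 0 < side g (k • x₁) * side g (k • x₃) := by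
          intro k hk
          have h1 := hF' _ _ (hFinv (SA.smul hk x₁ x₂) h12)
          have h2 := hF' _ _ (hFinv (SA.smul hk x₂ x₃) h23)
          have h3 : 0 < (side g (k • x₁) * side g (k • x₃)) * (side g (k • x₂)) ^ 2 := by
            have := mul_pos h1 h2
            nlinarith [this]
          have h5 : side g (k • x₂) ≠ 0 := by
            intro h
            rw [h, mul_zero] at h1
            exact lt_irrefl _ h1
          have h4 : 0 < (side g (k • x₂)) ^ 2 := by positivity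
          exact (pos_iff_pos_of_mul_pos h3).2 h4
        rintro c d (⟨k, hk, ⟨rfl, rfl⟩ | ⟨rfl, rfl⟩⟩ | h)
        · exact key k hk
        · rw [mul_comm]; exact key k hk
        · exact hF' c d h
    exact hle
  have hRI : L.RI F ≤ A := by
    apply Algebra.adjoin_le
    rintro z (h | ⟨a, b, h, rfl⟩)
    · exact hRA h
    · exact hDA (hinvD h)
  obtain ⟨N, hN1⟩ := pow_mul_mem_RI L F x₁ x₃ hx0 hf1
  obtain ⟨M, hM1⟩ := pow_mul_mem_RI L F x₂ y hy0 hf2
  have hA1 : x ^ (N + M) * f ∈ A := by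
    have : x ^ (N + M) * f = x ^ M * (x ^ N * f) := by ring
    rw [this]
    exact mul_mem (pow_mem hxA M) (hRI hN1)
  have hA2 : (c / x) ^ (N + M) * f ∈ A := by
    have : (c / x) ^ (N + M) * f = (c / x) ^ N * ((L.lam x₂ y) ^ M * f) := by rw [hcx']; ring
    rw [this]
    exact mul_mem (pow_mem hyA N) (hRI hM1)
  exact hAR (hH K K0 D x c hx0 hc0 hDK hcD hind f (N + M) hA1 hA2)

end Pool.Agent.Lib.MP_eee7a8_ag.TB.C30
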