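import Pool.Agent.Lib.MP_eee7a8_ag.TB.Iface3

/-!
# TAGBR, module INDK: Laurent monomials in the edges of `S` are independent over the field generated
by the other edges.
-/

set_option autoImplicit false
set_option linter.all false

open Matrix

namespace Pool.Agent.Lib.MP_eee7a8_ag.TB.C30

variable {G : Subgroup SLZ} {K : Type} [Field K] [Algebra ℂ K]

theorem sameArc_lam (L : Lam G K) {a b c d : Cusp} (h : SameArc G a b c d) :
    L.lam a b = L.lam c d := by
  obtain ⟨g, hg, h | h⟩ := h
  · rw [← h.1, ← h.2, L.inv g hg]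
  · rw [← h.1, ← h.2, ← L.inv g hg, L.symm]

section chart

variable {ι : Type} [Fintype ι] {T : Fam ι} {L : Lam G K}

theorem mon_zero (L : Lam G K) (T : Fam ι) : L.mon T 0 = 1 := by
  unfold Lam.mon
  simp

theorem ev_single (L : Lam G K) (T : Fam ι) (m : ι → ℤ) (c : ℂ) :
    L.ev T (AddMonoidAlgebra.single m c) = algebraMap ℂ K c * L.mon T m := by
  unfold Lam.ev
  rw [AddMonoidAlgebra.coeff_single, Finsupp.sum_single_index]
  rw [map_zero, zero_mul]

/-- evaluation as an algebra homomorphism -/
noncomputable def evAlg (hc : L.IsChart T) : AddMonoidAlgebra ℂ (ι → ℤ) →ₐ[ℂ] K :=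
  { toFun := L.ev T
    map_one' := hc.one
    map_mul' := hc.mul
    map_zero' := by
      have := hc.add 0 0
      rw [add_zero] at this
      exact (left_eq_add.1 this)
    map_add' := hc.add
    commutes' := by
      intro c
      change L.ev T (algebraMap ℂ _ c) = _
      rw [AddMonoidAlgebra.coe_algebraMap, Function.comp_apply, ev_single, mon_zero]
      simp }

theorem evAlg_apply (hc : L.IsChart T) (p : AddMonoidAlgebra ℂ (ι → ℤ)) :
    evAlg hc p = L.ev T p := rfl

theorem coeff_mul_single_one (p : AddMonoidAlgebra ℂ (ι → ℤ)) (m n : ι → ℤ) :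
    (p * AddMonoidAlgebra.single m 1).coeff n = p.coeff (n - m) := by
  rw [AddMonoidAlgebra.coeff_mul_single_eq_coeff_mul (m₂ := n - m), mul_one]
  intro m' _
  exact eq_sub_iff_add_eq.symm

end chart

theorem indk (hchart : ChartStatement) : IndkStatement := by
  intro G K _ _ L hG ι _ T hT S hS s k hs hk hsum
  classical
  have hc := hchart G K L hG ι T hT
  -- indices of the edges which are not in `S`
  let N := {i : ι // ¬ S (T.s i) (T.t i)}
  let x : N → K := fun i => L.lam (T.s i.1) (T.t i.1)
  have hset : {z : K | ∃ a b, T.E G a b ∧ ¬ S a b ∧ z = L.lam a b} = Set.range x := by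
    ext z
    constructor
    · rintro ⟨a, b, ⟨i, hi⟩, hnS, rfl⟩
      refine ⟨⟨i, fun h => hnS (hS.inv _ _ _ _ hi h)⟩, ?_⟩
      exact sameArc_lam L hi
    · rintro ⟨i, rfl⟩
      exact ⟨T.s i.1, T.t i.1, ⟨i.1, 1, G.one_mem, Or.inl ⟨by rw [one_smul'], by rw [one_smul']⟩⟩, i.2, rfl⟩
  rw [hset] at hk
  -- numerators and denominators
  have hk1 : ∀ m ∈ s, ∃ pq : MvPolynomial N ℂ × MvPolynomial N ℂ,
      MvPolynomial.aeval x pq.2 ≠ 0 ∧
        k m * MvPolynomial.aeval x pq.2 = MvPolynomial.aeval x pq.1 := by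
    intro m hm
    obtain ⟨p, q, hpq⟩ := (IntermediateField.mem_adjoin_range_iff ℂ x _).1 (hk m hm)
    by_cases h0 : MvPolynomial.aeval x q = 0
    · refine ⟨(0, 1), ?_, ?_⟩
      · rw [map_one]; exact one_ne_zero
      · rw [hpq, h0, div_zero, zero_mul, map_zero]
    · exact ⟨(p, q), h0, by rw [hpq]; field_simp⟩
  choose! pq hq0 hpq using hk1
  let Q : K := ∏ m ∈ s, MvPolynomial.aeval x (pq m).2
  have hQ0 : Q ≠ 0 := Finset.prod_ne_zero_iff.2 hq0
  let r : (ι → ℤ) → MvPolynomial N ℂ := fun m => (pq m).1 * ∏ m' ∈ s.erase m, (pq m').2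
  have hr : ∀ m ∈ s, k m * Q = MvPolynomial.aeval x (r m) := by
    intro m hm
    change k m * ∏ m ∈ s, MvPolynomial.aeval x (pq m).2 = _
    rw [← Finset.mul_prod_erase s _ hm, ← mul_assoc, hpq m hm, map_mul, map_prod]
  -- transfer to the Laurent ring
  let j : MvPolynomial N ℂ →ₐ[ℂ] AddMonoidAlgebra ℂ (ι → ℤ) :=
    MvPolynomial.aeval fun i : N => AddMonoidAlgebra.single (Pi.single i.1 1) 1
  have hj : ∀ p : MvPolynomial N ℂ, L.ev T (j p) = MvPolynomial.aeval x p := by
    intro p
    have : (evAlg hc).comp j = MvPolynomial.aeval x := by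
      apply MvPolynomial.algHom_ext
      intro i
      rw [AlgHom.comp_apply, MvPolynomial.aeval_X, MvPolynomial.aeval_X, evAlg_apply, ev_single,
        map_one, one_mul]
      unfold Lam.mon
      rw [Finset.prod_eq_single i.1]
      · rw [Pi.single_eq_same, zpow_one]
      · intro b _ hb
        rw [Pi.single_eq_of_ne hb, zpow_zero]
      · intro h
        exact absurd (Finset.mem_univ _) h
    exact congrArg (fun h : MvPolynomial N ℂ →ₐ[ℂ] K => h p) this
  have hjs : ∀ (p : MvPolynomial N ℂ) (e : ι → ℤ) (i : ι), S (T.s i) (T.t i) → e i ≠ 0 →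
      (j p).coeff e = 0 := by
    intro p
    induction p using MvPolynomial.induction_on with
    | C a =>
      intro e i hi he
      have h1 : j (MvPolynomial.C a) = AddMonoidAlgebra.single 0 a := by
        rw [MvPolynomial.algHom_C, AddMonoidAlgebra.coe_algebraMap, Function.comp_apply]
        rfl
      rw [h1, AddMonoidAlgebra.coeff_single, Finsupp.single_apply, if_neg]
      rintro rfl
      exact he rfl
    | add p q hp hq =>
      intro e i hi he
      rw [map_add, AddMonoidAlgebra.coeff_add, Finsupp.add_apply, hp e i hi he, hq e i hi he,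
        add_zero]
    | mul_X p i' hp =>
      intro e i hi he
      have h1 : j (MvPolynomial.X i') = AddMonoidAlgebra.single (Pi.single i'.1 1) 1 :=
        MvPolynomial.aeval_X _ _
      rw [map_mul, h1, coeff_mul_single_one]
      apply hp _ i hi
      have hne : i ≠ i'.1 := by
        rintro rfl
        exact i'.2 hi
      rw [Pi.sub_apply, Pi.single_eq_of_ne hne, sub_zero]
      exact he
  have hsum2 : ∑ m ∈ s, j (r m) * AddMonoidAlgebra.single m 1 = 0 := by
    apply hc.inj
    have h1 : L.ev T (∑ m ∈ s, j (r m) * AddMonoidAlgebra.single m 1) =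
        ∑ m ∈ s, L.ev T (j (r m)) * L.mon T m := by
      rw [← evAlg_apply hc, map_sum]
      refine Finset.sum_congr rfl fun m _ => ?_
      rw [map_mul, evAlg_apply, evAlg_apply, ev_single, map_one, one_mul]
    rw [h1, ← evAlg_apply hc 0, map_zero]
    have h2 : ∑ m ∈ s, L.ev T (j (r m)) * L.mon T m = Q * ∑ m ∈ s, k m * L.mon T m := by
      rw [Finset.mul_sum]
      refine Finset.sum_congr rfl fun m hm => ?_
      rw [hj, ← hr m hm]
      ring
    rw [h2, hsum, mul_zero]
  intro m₀ hm₀
  have hzero : j (r m₀) = 0 := by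
    apply AddMonoidAlgebra.ext
    ext e
    rw [AddMonoidAlgebra.coeff_zero, Finsupp.zero_apply]
    by_cases he : ∃ i, S (T.s i) (T.t i) ∧ e i ≠ 0
    · obtain ⟨i, hi, hei⟩ := he
      exact hjs _ _ i hi hei
    push Not at he
    have h1 : (∑ m ∈ s, j (r m) * AddMonoidAlgebra.single m 1).coeff (e + m₀) =
        (0 : AddMonoidAlgebra ℂ (ι → ℤ)).coeff (e + m₀) := by rw [hsum2]
    rw [AddMonoidAlgebra.coeff_sum, Finsupp.finset_sum_apply, AddMonoidAlgebra.coeff_zero,
      Finsupp.zero_apply, Finset.sum_eq_single m₀] at h1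
    · rwa [coeff_mul_single_one, add_sub_cancel_right] at h1
    · intro m hm hne
      rw [coeff_mul_single_one]
      have hex : ∃ i, m i ≠ m₀ i := by
        by_contra h3
        push Not at h3
        exact hne (funext h3)
      obtain ⟨i, hi⟩ := hex
      have hSi : S (T.s i) (T.t i) := by
        by_contra h3
        exact hi ((hs m hm i h3).trans (hs m₀ hm₀ i h3).symm)
      apply hjs _ _ i hSi
      rw [Pi.sub_apply, Pi.add_apply, he i hSi]
      intro h3
      apply hi
      linarith
    · intro h3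
      exact absurd hm₀ h3
  have h4 : k m₀ * Q = 0 := by
    rw [hr m₀ hm₀, ← hj, hzero, ← evAlg_apply hc, map_zero]
  exact (mul_eq_zero.1 h4).resolve_right hQ0

end Pool.Agent.Lib.MP_eee7a8_ag.TB.C30
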